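import Pool.Agent.W307.QF.Stm

/-!
# Project QF, part NZB: zeros of a binary quadratic form with one variable fixed
-/

set_option autoImplicit false

namespace Pool.Agent.W315.QF

open Finset Polynomial

theorem nzb : Pool.Agent.W307.QF.NZB := by
  classical
  intro a b c hsq
  have ha : a ≠ 0 := by
    rintro rfl
    apply hsq
    exact ⟨b, by ring⟩
  refine ⟨2 * a.natAbs, ?_⟩
  intro p n w hp hpa hw
  haveI : Fact p.Prime := ⟨hp⟩
  have hapos : 1 ≤ a.natAbs := Int.natAbs_pos.2 ha
  have hp2 : p ≠ 2 := by omega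
  have hap : ((a : ℤ) : ZMod p) ≠ 0 := by
    intro h
    rw [ZMod.intCast_zmod_eq_zero_iff_dvd] at h
    have h1 : p ∣ a.natAbs := Int.natCast_dvd.1 h
    have h2 := Nat.le_of_dvd (by omega) h1
    omega
  have hwp : ((w : ℤ) : ZMod p) ≠ 0 := by
    intro h
    rw [ZMod.intCast_zmod_eq_zero_iff_dvd] at h
    exact hw h
  have h2p : (2 : ZMod p) ≠ 0 := by
    intro h
    have h1 : ((2 : ℕ) : ZMod p) = 0 := by exact_mod_cast h
    rw [ZMod.natCast_eq_zero_iff] at h1
    have h3 := Nat.le_of_dvd (by norm_num) h1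
    have h4 := hp.two_le
    omega
  have hchar : ringChar (ZMod p) ≠ 2 := by
    rw [ZMod.ringChar_zmod_n]
    exact hp2
  have hev : ∀ x : ℤ, (p : ℤ) ∣ (C a * (X + C n) ^ 2 + C (b * w) * (X + C n) +
      C (c * w ^ 2) : ℤ[X]).eval x ↔
      (2 * (a : ZMod p) * ((x : ZMod p) + n) + b * w) ^ 2 =
        ((w : ZMod p) ^ 2 * ((b ^ 2 - 4 * a * c : ℤ) : ZMod p)) := by
    intro x
    rw [← ZMod.intCast_zmod_eq_zero_iff_dvd]
    simp only [eval_add, eval_mul, eval_pow, eval_C, eval_X]
    push_cast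
    have h4a : (4 : ZMod p) * a ≠ 0 := by
      have : (4 : ZMod p) = 2 * 2 := by norm_num
      rw [this]
      exact mul_ne_zero (mul_ne_zero h2p h2p) hap
    constructor
    · intro h
      have : (2 * (a : ZMod p) * ((x : ZMod p) + n) + b * w) ^ 2 =
          (w : ZMod p) ^ 2 * ((b : ZMod p) ^ 2 - 4 * a * c) +
          4 * a * (a * ((x : ZMod p) + n) ^ 2 + b * w * (x + n) + c * w ^ 2) := by ring
      rw [this, h]
      ring
    · intro h
      apply (mul_eq_zero.1 (?_ : (4 * (a : ZMod p)) * _ = 0)).resolve_left h4a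
      have : 4 * (a : ZMod p) * (a * ((x : ZMod p) + n) ^ 2 + b * w * (x + n) + c * w ^ 2) =
          (2 * (a : ZMod p) * ((x : ZMod p) + n) + b * w) ^ 2 -
          (w : ZMod p) ^ 2 * ((b : ZMod p) ^ 2 - 4 * a * c) := by ring
      rw [this, h, sub_self]
  have hcard : ((Pool.Agent.W307.QF.nz (C a * (X + C n) ^ 2 + C (b * w) * (X + C n) +
      C (c * w ^ 2)) p : ℕ) : ℤ) =
      quadraticChar (ZMod p) ((w : ZMod p) ^ 2 * ((b ^ 2 - 4 * a * c : ℤ) : ZMod p)) + 1 := by
    rw [← quadraticChar_card_sqrts hchar]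
    congr 1
    unfold Pool.Agent.W307.QF.nz
    apply Finset.card_bij
      (fun (x : ℕ) _ => (2 * (a : ZMod p) * ((x : ZMod p) + n) + b * w : ZMod p))
    · intro x hx
      rw [mem_filter] at hx
      have h1 := (hev x).1 hx.2
      rw [Set.mem_toFinset, Set.mem_ofPred_eq]
      rw [← h1]
      push_cast
      rfl
    · intro x hx y hy h
      rw [mem_filter, mem_range] at hx hy
      have h1 : (2 * (a : ZMod p)) * ((x : ZMod p) - y) = 0 := by linear_combination h
      have h3 := (mul_eq_zero.1 h1).resolve_left (mul_ne_zero h2p hap)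
      have h4 : (x : ZMod p) = (y : ZMod p) := sub_eq_zero.1 h3
      rw [ZMod.natCast_eq_natCast_iff'] at h4
      rwa [Nat.mod_eq_of_lt hx.1, Nat.mod_eq_of_lt hy.1] at h4
    · intro y hy
      rw [Set.mem_toFinset, Set.mem_ofPred_eq] at hy
      refine ⟨((y - b * w) / (2 * a) - n : ZMod p).val, ?_, ?_⟩
      · rw [mem_filter, mem_range]
        refine ⟨ZMod.val_lt _, ?_⟩
        rw [hev]
        rw [← hy]
        push_cast
        rw [ZMod.natCast_zmod_val]
        congr 1
        have := mul_ne_zero h2p hap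
        field_simp
        ring
      · rw [ZMod.natCast_zmod_val]
        have := mul_ne_zero h2p hap
        field_simp
        ring
  have hqc : quadraticChar (ZMod p) ((w : ZMod p) ^ 2 * ((b ^ 2 - 4 * a * c : ℤ) : ZMod p)) =
      jacobiSym (b ^ 2 - 4 * a * c) p := by
    rw [map_mul, quadraticChar_sq_one' hwp, one_mul, ← jacobiSym.legendreSym.to_jacobiSym]
    rfl
  rw [hqc] at hcard
  unfold Pool.Agent.W307.QF.re
  omega

end Pool.Agent.W315.QF
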